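import Pool.Agent.Lib.MP_b039ef_an.AS.Final

/-!
Self-affine sets with random translations: for an open set of systems the lower dimension is
almost surely strictly smaller than the Assouad dimension.
-/

set_option autoImplicit false

namespace Pool.Agent.Results.MP_b039ef_an.AlmostSureGap

open Pool.Agent.MP_b039ef_an
open MeasureTheory

/-- For all `d ≥ 2` and `m ≥ 3` there is a nonempty open set `O` of `m`-tuples of linear maps of
`ℝ^d` such that, for every `A ∈ O`, the maps `A i` are bijective with norms less than `1/2`, and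
for almost every translation vector `t` the self-affine set `F` of the maps `x ↦ A i x + t i` has
lower dimension at most `1` and Assouad dimension larger than `1`. -/
theorem result (d m : ℕ) (hd : 2 ≤ d) (hm : 3 ≤ m) :
    ∃ O : Set (Fin m → EuclideanSpace ℝ (Fin d) →L[ℝ] EuclideanSpace ℝ (Fin d)),
      IsOpen O ∧ O.Nonempty ∧ ∀ A ∈ O,
        (∀ i, Function.Bijective (A i)) ∧ (∀ i, ‖A i‖ < 1 / 2) ∧
        ∀ᵐ t : Fin m → EuclideanSpace ℝ (Fin d), ∀ F : Set (EuclideanSpace ℝ (Fin d)),
          IsSelfAffineSet A t F → lowerDim F ≤ 1 ∧ 1 < assouadDim F := by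
  obtain ⟨O, hO, hne, h⟩ := AS.exists_open d m hd hm
  refine ⟨O, hO, hne, fun A hA => ?_⟩
  obtain ⟨hbij, U, a, θ, hS, hμ, hsum⟩ := h A hA
  exact ⟨hbij, hS.norm, AS.main hd (by omega) hS hμ hsum⟩

end Pool.Agent.Results.MP_b039ef_an.AlmostSureGap
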