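import Pool.Agent.Lib.MP_b039ef_an.AS.EFinal

/-!
Self-affine sets with random translations: a formula for the almost sure lower dimension of the
systems with a dominating common left eigenvector.
-/

set_option autoImplicit false

namespace Pool.Agent.Results.MP_b039ef_an.LowerDimFormula

open Pool.Agent.MP_b039ef_an
open MeasureTheory

/-- Let `d, m ≥ 2`, let the `A i` be injective linear maps of `ℝ^d` with norms less than `1/2`, and
suppose that `u ≠ 0` is a common eigenvector of their transposes, with eigenvalues `a i`, such that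
`‖A i x‖ < |a i| ‖x‖` for all `x ≠ 0` orthogonal to `u`. If `∑ |a i|^s = 1`, then for almost every
translation vector `t` the self-affine set has lower dimension `min 1 s`, and its Assouad dimension
is larger than `1` if `s > 1`. -/
theorem result (d m : ℕ) (hd : 2 ≤ d) (hm : 2 ≤ m)
    (A : Fin m → EuclideanSpace ℝ (Fin d) →L[ℝ] EuclideanSpace ℝ (Fin d))
    (hinj : ∀ i, Function.Injective (A i)) (hnorm : ∀ i, ‖A i‖ < 1 / 2)
    (u : EuclideanSpace ℝ (Fin d)) (hu : u ≠ 0) (a : Fin m → ℝ)
    (ha : ∀ i x, inner ℝ u (A i x) = a i * inner ℝ u x)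
    (hdom : ∀ i x, x ≠ 0 → inner ℝ u x = 0 → ‖A i x‖ < |a i| * ‖x‖)
    (s : ℝ) (hs : 0 < s) (hsum : ∑ i, |a i| ^ s = 1) :
    ∀ᵐ t : Fin m → EuclideanSpace ℝ (Fin d), ∀ F : Set (EuclideanSpace ℝ (Fin d)),
      IsSelfAffineSet A t F →
        lowerDim F = ENNReal.ofReal (min 1 s) ∧ (1 < s → 1 < assouadDim F) :=
  AS.mainE hd hm hinj hnorm u hu a ha hdom s hs hsum

end Pool.Agent.Results.MP_b039ef_an.LowerDimFormula
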