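import Pool.Agent.Lib.MP_b039ef_an.Main

/-!
Self-affine sets with random translations: the lower dimension is not almost surely constant, and
it is not almost surely equal to the Assouad dimension, in every dimension `d ≥ 2`.
-/

set_option autoImplicit false

namespace Pool.Agent.Results.MP_b039ef_an.LowerDimNotConstant

open Pool.Agent.MP_b039ef_an
open scoped ENNReal
open MeasureTheory

/-- For every `d ≥ 2` there are nonsingular linear maps `A 0, ..., A (m-1)` of `ℝ^d` with norms
less than `1/2` such that, with `F t` the unique self-affine set with translations `t`, the lower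
dimension of `F t` is at most `1` and its Assouad dimension at least `d` for a set of `t` of
positive Lebesgue measure, while its lower dimension is at least `d` for another set of `t` of
positive measure; in particular the lower dimension is not almost surely constant. -/
theorem result (d : ℕ) (hd : 2 ≤ d) :
    ∃ (m : ℕ) (A : Fin m → EuclideanSpace ℝ (Fin d) →L[ℝ] EuclideanSpace ℝ (Fin d)),
      (∀ i, Function.Bijective (A i)) ∧ (∀ i, ‖A i‖ < 1 / 2) ∧
      ∃ F : (Fin m → EuclideanSpace ℝ (Fin d)) → Set (EuclideanSpace ℝ (Fin d)),
        (∀ t K, IsSelfAffineSet A t K ↔ K = F t) ∧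
        0 < volume {t | lowerDim (F t) ≤ 1 ∧ (d : ℝ≥0∞) ≤ assouadDim (F t)} ∧
        0 < volume {t | (d : ℝ≥0∞) ≤ lowerDim (F t)} ∧
        ¬ ∃ b, ∀ᵐ t, lowerDim (F t) = b :=
  main d hd

end Pool.Agent.Results.MP_b039ef_an.LowerDimNotConstant
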