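import Pool.Agent.Lib.MP_b039ef_an_SG.Asm

/-!
Self-affine sets: systems of affinity dimension less than one whose self-affine sets have Assouad
dimension at least one for every translation vector.
-/

set_option autoImplicit false

namespace Pool.Agent.Results.MP_b039ef_an.SureGap

open Pool.Agent.MP_b039ef_an

variable {E : Type} [NormedAddCommGroup E] [NormedSpace ℝ E] {m : ℕ}

/-- No positive power of `B` has a real eigenvector. -/
def NoRealEigenvector (B : E →L[ℝ] E) : Prop :=
  ∀ n : ℕ, 0 < n → ∀ x : E, x ≠ 0 → ∀ c : ℝ, (B ^ n) x ≠ c • x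

/-- Some linear change of coordinates makes all maps similarities. -/
def AllSimilar (A : Fin m → E →L[ℝ] E) : Prop :=
  ∃ g : E ≃L[ℝ] E, ∀ i, ∃ c : ℝ, ∀ x, ‖g (A i x)‖ = c * ‖g x‖

/-- The sum of the `‖A k‖ ^ s` over the products `A k` of length `n`. -/
noncomputable def wordSum (A : Fin m → E →L[ℝ] E) (n : ℕ) (s : ℝ) : ℝ :=
  ∑ k : Fin n → Fin m, ‖(List.ofFn fun j => A (k j)).prod‖ ^ s

/-- (1) Let `A 1, …, A m` be injective contractions of the plane such that no positive power of
some product of them has a real eigenvector, and such that no linear change of coordinates makes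
all of them similarities. Then, for every translation vector for which the self-affine set has two
points, its Assouad dimension is at least one; and its lower dimension is at most `s` whenever
the sum of `‖A k‖ ^ s` over the products of some length `n ≥ 1` is at most one.
(2) In all dimensions `d ≥ 2`, for all `m ≥ 2` and `ε > 0` there are bijective linear maps with norms
less than `1 / 2` such that for every translation vector outside a proper subspace the lower
dimension is at most `ε` and the Assouad dimension is at least one. -/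
theorem result :
    (∀ (m : ℕ) (A : Fin m → EuclideanSpace ℝ (Fin 2) →L[ℝ] EuclideanSpace ℝ (Fin 2)),
      (∀ i, Function.Injective (A i) ∧ ‖A i‖ < 1) →
      (∃ w : List (Fin m), NoRealEigenvector (w.map A).prod) → ¬ AllSimilar A →
      ∀ t F, IsSelfAffineSet A t F → F.Nontrivial →
        1 ≤ assouadDim F ∧ ∀ (n : ℕ) (s : ℝ), 0 < n → 0 < s → wordSum A n s ≤ 1 →
          lowerDim F ≤ ENNReal.ofReal s) ∧
    ∀ (d m : ℕ), 2 ≤ d → 2 ≤ m → ∀ ε : ℝ, 0 < ε →
      ∃ (A : Fin m → EuclideanSpace ℝ (Fin d) →L[ℝ] EuclideanSpace ℝ (Fin d))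
        (V : Submodule ℝ (Fin m → EuclideanSpace ℝ (Fin d))),
        (∀ i, Function.Bijective (A i) ∧ ‖A i‖ < 1 / 2) ∧ V ≠ ⊤ ∧
        ∀ t ∉ V, ∀ F, IsSelfAffineSet A t F →
          lowerDim F ≤ ENNReal.ofReal ε ∧ 1 ≤ assouadDim F := by
  refine ⟨fun m A hA hw hconf t F hF hnt => ?_, fun d m hd hm ε hε => ?_⟩
  · obtain ⟨w, hw⟩ := hw
    have hinj := fun i => (hA i).1
    have h1 := fun i => (hA i).2
    refine ⟨SG.plane (by simp) hinj h1 hw (fun hg => hconf ?_) hF hnt,
      fun n s hn hs hsum => SG.lowerDim_le_words hF hnt hinj h1 hn hs hsum⟩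
    obtain ⟨g, hg⟩ := hg
    refine ⟨g.trans Complex.orthonormalBasisOneI.repr.toContinuousLinearEquiv, fun i => ?_⟩
    obtain ⟨c, hc⟩ := hg i
    refine ⟨c, fun x => ?_⟩
    have h2 : ∀ y, ‖(g.trans Complex.orthonormalBasisOneI.repr.toContinuousLinearEquiv) y‖ =
        ‖g y‖ := fun y => Complex.orthonormalBasisOneI.repr.norm_map (g y)
    rw [h2, h2, hc]
  · obtain ⟨A, V, hA, hA', hV, h⟩ := SG.ex_all hd hm hε
    exact ⟨A, V, fun i => ⟨hA i, hA' i⟩, hV, h⟩

end Pool.Agent.Results.MP_b039ef_an.SureGap
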